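import Pool.Agent.Helper14.Loc.Defs
import Pool.Agent.Helper14.W4.M42
import Pool.Agent.Helper14.W4.H6

set_option autoImplicit false

/-!
# Localisation for `Γ(K(t), n) ⊗ ℚ`: translation
-/

noncomputable section

open Polynomial TensorProduct
open scoped Classical

namespace Helper14.Loc

open Helper14.Gon Helper14.W4

universe u v w

section
variable {F : Type u} [Field F]

lemma mem_ZC (k j : ℕ) (z : CC k j F) : z ∈ ZC F k j ↔ eC F k j z ∈ cyc F k j := by
  cases k with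
  | zero =>
    change dl j F z = 0 ↔ dT j (eC F 0 j z) = 0
    rw [← dl_eq]
    exact (LinearEquiv.map_eq_zero_iff (eT F (j + 2))).symm
  | succ k =>
    change dd k j F z = 0 ↔ dC k j (eC F (k + 1) j z) = 0
    rw [← dd_eq]
    exact (LinearEquiv.map_eq_zero_iff (eC F k (j + 1))).symm

lemma mem_BC (k j : ℕ) (z : CC k j F) : z ∈ BC F k j ↔ eC F k j z ∈ bdry F k j := by
  cases j with
  | zero =>
    change z ∈ (⊥ : Submodule ℚ (CC k 0 F)) ↔ eC F k 0 z ∈ (⊥ : Submodule ℚ (Cx (k + 2) 0 F))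
    rw [Submodule.mem_bot, Submodule.mem_bot]
    exact (LinearEquiv.map_eq_zero_iff (eC F k 0)).symm
  | succ j =>
    constructor
    · rintro ⟨y, rfl⟩
      exact ⟨eC F (k + 1) j y, (dd_eq k j y).symm⟩
    · rintro ⟨y, hy⟩
      refine ⟨(eC F (k + 1) j).symm y, (eC F k (j + 1)).injective ?_⟩
      rw [dd_eq, LinearEquiv.apply_symm_apply, hy]

lemma mem_BT (n : ℕ) (z : TT (n + 2) F) : z ∈ BT F (n + 2) ↔
    eT F (n + 2) z ∈ LinearMap.range (dT n : Cx 2 n F →ₗ[ℚ] _) := by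
  constructor
  · rintro ⟨y, rfl⟩
    exact ⟨eC F 0 n y, (dl_eq n y).symm⟩
  · rintro ⟨y, hy⟩
    refine ⟨(eC F 0 n).symm y, (eT F (n + 2)).injective ?_⟩
    rw [dl_eq, LinearEquiv.apply_symm_apply, hy]

lemma wC_cyc (k j : ℕ) (u : Additive Fˣ) {z : Cx (k + 2) j F} (hz : z ∈ cyc F k j) :
    wC (k + 2) j u z ∈ cyc F k (j + 1) := by
  cases k with
  | zero =>
    change dT (j + 1) _ = 0
    have h : dT j z = 0 := hz
    rw [dT_wC, h, map_zero]
  | succ k =>
    change dC k (j + 1) _ = 0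
    have h : dC k j z = 0 := hz
    have e := dC_wC k j u z
    rw [h, map_zero, neg_zero] at e
    exact e

lemma wC_bdry (k j : ℕ) (u : Additive Fˣ) {z : Cx (k + 2) j F} (hz : z ∈ bdry F k j) :
    wC (k + 2) j u z ∈ bdry F k (j + 1) := by
  cases j with
  | zero =>
    have : z = 0 := hz
    rw [this, map_zero]; exact zero_mem _
  | succ j =>
    obtain ⟨y, rfl⟩ := hz
    refine ⟨- wC (k + 3) j u y, ?_⟩
    rw [map_neg, dC_wC, neg_neg]

end

section
variable {K : Type u} [Field K]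

/-- injectivity, all degrees below the top degree -/
theorem inj_all (k j : ℕ) (z0 : Cx (k + 2) (j + 1) K) (s : Finset K) (za : K → Cx (k + 2) j K)
    (h : rC k (j + 1) z0 + ∑ a ∈ s, wC (k + 2) j (ee a) (rC k j (za a)) ∈
      bdry (RatFunc K) k (j + 1)) :
    z0 ∈ bdry K k (j + 1) ∧ ∀ a ∈ s, za a ∈ bdry K k j := by
  obtain ⟨w, hw⟩ := h
  cases j with
  | zero =>
    cases k with
    | zero =>
      obtain ⟨⟨w0, h0⟩, h1⟩ := inj3 z0 s za w hw.symm
      exact ⟨⟨w0, h0⟩, h1⟩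
    | succ k =>
      obtain ⟨⟨w0, h0⟩, h1⟩ := inj2 k z0 s za w hw.symm
      exact ⟨⟨w0, h0⟩, h1⟩
  | succ j =>
    obtain ⟨⟨w0, h0⟩, h1⟩ := inj4 k j z0 s za w hw.symm
    exact ⟨⟨w0, h0⟩, fun a ha => h1 a ha⟩

/-- surjectivity -/
def Surj (K : Type u) [Field K] (k j : ℕ) : Prop :=
  ∀ z ∈ cyc (RatFunc K) k (j + 1), ∃ (z0 : Cx (k + 2) (j + 1) K) (s : Finset K)
    (za : K → Cx (k + 2) j K) (w : Cx (k + 3) j (RatFunc K)),
    z0 ∈ cyc K k (j + 1) ∧ (∀ a, za a ∈ cyc K k j) ∧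
      z = rC k (j + 1) z0 + ∑ a ∈ s, wC (k + 2) j (ee a) (rC k j (za a)) + dC k j w

theorem locMid_of (k j : ℕ) (hs : Surj K k j) : LocMid K k j := by
  have ers : ∀ z : CC k (j + 1) K, eC (RatFunc K) k (j + 1)
      (rs k (j + 1) (RatFunc.C : K →+* RatFunc K) z) = rC k (j + 1) (eC K k (j + 1) z) :=
    fun z => rs_eq k (j + 1) _ z
  have eus : ∀ (a : K) (z : CC k j K), eC (RatFunc K) k (j + 1)
      (us k j (RatFunc.C : K →+* RatFunc K) (lgm (RatFunc.X - RatFunc.C a)) z) =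
        wC (k + 2) j (ee a) (rC k j (eC K k j z)) := fun a z => us_eq k j _ _ z
  have esum : ∀ (z0 : CC k (j + 1) K) (s : Finset K) (za : K → CC k j K),
      eC (RatFunc K) k (j + 1) (rs k (j + 1) (RatFunc.C : K →+* RatFunc K) z0 +
        ∑ a ∈ s, us k j (RatFunc.C : K →+* RatFunc K) (lgm (RatFunc.X - RatFunc.C a)) (za a)) =
      rC k (j + 1) (eC K k (j + 1) z0) +
        ∑ a ∈ s, wC (k + 2) j (ee a) (rC k j (eC K k j (za a))) := by
    intro z0 s za
    rw [map_add, ers, map_sum]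
    congr 1
    exact Finset.sum_congr rfl fun a _ => eus a (za a)
  refine loc_of' (rs k (j + 1) (RatFunc.C : K →+* RatFunc K))
    (fun a => us k j (RatFunc.C : K →+* RatFunc K) (lgm (RatFunc.X - RatFunc.C a)))
    (ZC K k (j + 1)) (BC K k (j + 1)) (ZC K k j) (BC K k j) (ZC (RatFunc K) k (j + 1))
    (BC (RatFunc K) k (j + 1)) ?_ ?_ ?_ ?_ ?_ ?_
  · intro z hz
    rw [mem_ZC] at hz ⊢
    rw [ers]
    exact resC_cyc _ k (j + 1) hz
  · intro a z hz
    rw [mem_ZC] at hz ⊢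
    rw [eus]
    exact wC_cyc k j _ (resC_cyc _ k j hz)
  · intro z hz
    rw [mem_BC] at hz ⊢
    rw [ers]
    exact resC_bdry _ k (j + 1) hz
  · intro a z hz
    rw [mem_BC] at hz ⊢
    rw [eus]
    exact wC_bdry k j _ (resC_bdry _ k j hz)
  · intro z hz
    rw [mem_ZC] at hz
    obtain ⟨z0, s, za, w, h0, ha, h⟩ := hs _ hz
    refine ⟨(eC K k (j + 1)).symm z0, s, fun a => (eC K k j).symm (za a),
      (eC (RatFunc K) k (j + 1)).symm (dC k j w), ?_, ?_, ?_, ?_⟩
    · rw [mem_ZC, LinearEquiv.apply_symm_apply]; exact h0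
    · intro a
      rw [mem_ZC, LinearEquiv.apply_symm_apply]; exact ha a
    · rw [mem_BC, LinearEquiv.apply_symm_apply]; exact ⟨w, rfl⟩
    · apply (eC (RatFunc K) k (j + 1)).injective
      rw [map_add, esum, h, LinearEquiv.apply_symm_apply, LinearEquiv.apply_symm_apply]
      simp only [LinearEquiv.apply_symm_apply]
  · intro z0 s za h
    rw [mem_BC, esum] at h
    obtain ⟨h1, h2⟩ := inj_all k j _ s _ h
    exact ⟨(mem_BC _ _ _).2 h1, fun a ha => (mem_BC _ _ _).2 (h2 a ha)⟩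

theorem locOne (k : ℕ) : LocOne K k := by
  have ers : ∀ z : CC k 0 K, eC (RatFunc K) k 0
      (rs k 0 (RatFunc.C : K →+* RatFunc K) z) = rC k 0 (eC K k 0 z) :=
    fun z => rs_eq k 0 _ z
  have c0 : ∀ z ∈ ZC K k 0, rs k 0 (RatFunc.C : K →+* RatFunc K) z ∈ ZC (RatFunc K) k 0 := by
    intro z hz
    rw [mem_ZC] at hz ⊢
    rw [ers]
    exact resC_cyc _ k 0 hz
  set T : HC K k 0 →ₗ[ℚ] HC (RatFunc K) k 0 := Submodule.mapQ _ _
    ((rs k 0 (RatFunc.C : K →+* RatFunc K)).restrict c0) (by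
      intro z hz
      have h : z.1 = 0 := hz
      change rs k 0 _ z.1 = 0
      rw [h, map_zero]) with hT
  have hb : Function.Bijective T := by
    constructor
    · rw [injective_iff_map_eq_zero]
      intro z hz
      obtain ⟨z, rfl⟩ := Submodule.Quotient.mk_surjective _ z
      have h1 := (Submodule.Quotient.mk_eq_zero _).1 hz
      have h2 : rs k 0 (RatFunc.C : K →+* RatFunc K) z.1 = 0 := h1
      refine (Submodule.Quotient.mk_eq_zero _).2 ?_
      have h3 : z.1 = 0 := by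
        have h4 := ers z.1
        rw [h2, map_zero] at h4
        have h5 := sC_rC (0 : K) k 0 (eC K k 0 z.1)
        rw [← h4, map_zero] at h5
        exact (LinearEquiv.map_eq_zero_iff _).1 h5.symm
      exact h3
    · intro z
      obtain ⟨z, rfl⟩ := Submodule.Quotient.mk_surjective _ z
      obtain ⟨y, hy, hy'⟩ := cyc_surj k _ ((mem_ZC k 0 z.1).1 z.2)
      refine ⟨Submodule.Quotient.mk ⟨(eC K k 0).symm y, ?_⟩, ?_⟩
      · rw [mem_ZC, LinearEquiv.apply_symm_apply]; exact hy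
      · refine congrArg Submodule.Quotient.mk (Subtype.ext ?_)
        apply (eC (RatFunc K) k 0).injective
        have h4 := ers ((eC K k 0).symm y)
        rw [LinearEquiv.apply_symm_apply] at h4
        exact h4.trans hy'
  exact ⟨LinearEquiv.ofBijective T hb, fun z => ⟨c0 _ z.2, rfl⟩⟩

end

end Helper14.Loc
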