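import Pool.Agent.Helper14.W4.H5
import Pool.Agent.Helper14.Gon.Bridge

set_option autoImplicit false

/-!
# Cohomology of the complexes `Γ(F, n) ⊗ ℚ` and localisation: definitions
-/

noncomputable section

open Polynomial TensorProduct
open scoped Classical

namespace Helper14.Loc

open Helper14.Gon Helper14.W4

universe u v w

/-! ### cohomology -/

section
variable (F : Type u) [Field F]

/-- The cocycles in the term `B_{k+2}(F) ⊗ Λ^j F^* ⊗ ℚ` of `Γ(F, k + j + 2) ⊗ ℚ`. -/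
def ZC : (k j : ℕ) → Submodule ℚ (CC k j F)
  | 0, j => LinearMap.ker (dl j F)
  | k + 1, j => LinearMap.ker (dd k j F)

/-- The coboundaries in the term `B_{k+2}(F) ⊗ Λ^j F^* ⊗ ℚ` of `Γ(F, k + j + 2) ⊗ ℚ`. -/
def BC : (k j : ℕ) → Submodule ℚ (CC k j F)
  | _, 0 => ⊥
  | k, j + 1 => LinearMap.range (dd k j F)

/-- The cohomology group `H^{j+1}(Γ(F, k + j + 2) ⊗ ℚ)`, in a degree below the top degree. -/
def HC (k j : ℕ) : Type u := ↥(ZC F k j) ⧸ (BC F k j).submoduleOf (ZC F k j)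

instance instHC (k j : ℕ) : AddCommGroup (HC F k j) :=
  (Submodule.Quotient.addCommGroup _ :
    AddCommGroup (↥(ZC F k j) ⧸ (BC F k j).submoduleOf (ZC F k j)))

instance instQHC (k j : ℕ) : Module ℚ (HC F k j) :=
  (Submodule.Quotient.module _ : Module ℚ (↥(ZC F k j) ⧸ (BC F k j).submoduleOf (ZC F k j)))

/-- The coboundaries in the last term `Λ^n F^* ⊗ ℚ` of `Γ(F, n) ⊗ ℚ` (none for `n = 0, 1`). -/
def BT : (n : ℕ) → Submodule ℚ (TT n F)
  | 0 => ⊥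
  | 1 => ⊥
  | j + 2 => LinearMap.range (dl j F)

/-- The cohomology group `H^n(Γ(F, n) ⊗ ℚ)`, in the top degree; for `n = 1` it is `F^* ⊗ ℚ` and
for `n = 0` it is `ℚ`. -/
def HT (n : ℕ) : Type u := TT n F ⧸ BT F n

instance instHT (n : ℕ) : AddCommGroup (HT F n) :=
  (Submodule.Quotient.addCommGroup _ : AddCommGroup (TT n F ⧸ BT F n))

instance instQHT (n : ℕ) : Module ℚ (HT F n) :=
  (Submodule.Quotient.module _ : Module ℚ (TT n F ⧸ BT F n))

variable {F}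

/-- The class of a cocycle. -/
def hc {k j : ℕ} (z : ↥(ZC F k j)) : HC F k j :=
  (Submodule.Quotient.mk z : ↥(ZC F k j) ⧸ (BC F k j).submoduleOf (ZC F k j))

/-- The class of an element of `Λ^n F^* ⊗ ℚ`. -/
def ht {n : ℕ} (z : TT n F) : HT F n := (Submodule.Quotient.mk z : TT n F ⧸ BT F n)

end

/-! ### the maps `z ↦ u ∧ φ(z)` -/

section
variable {F : Type u} [Field F] {L : Type v} [Field L]

/-- There is a linear map (necessarily unique) mapping `{x} ⊗ v_1 ∧ … ∧ v_j` to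
`{φ(x)} ⊗ u ∧ φ(v_1) ∧ … ∧ φ(v_j)`. -/
theorem exists_us (k j : ℕ) (φ : F →+* L) (u : MU L) : ∃ f : CC k j F →ₗ[ℚ] CC k (j + 1) L,
    ∀ (x : P1 F) (v : Fin j → MU F),
      f (gn k x v) = gn k (Option.map φ x) (Fin.cons u (fun i => mu φ (v i))) := by
  refine ⟨(eC L k (j + 1)).symm.toLinearMap ∘ₗ (wC (k + 2) j u) ∘ₗ (resC (k + 1) j φ) ∘ₗ
    (eC F k j).toLinearMap, fun x v => ?_⟩
  rw [LinearMap.comp_apply, LinearMap.comp_apply, LinearMap.comp_apply, LinearEquiv.coe_coe,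
    LinearEquiv.coe_coe, resC_eC, LinearEquiv.symm_apply_eq, eC_gn, ← PB_gen, wC_PB, wT_toQ,
    PB_gen, wL_ιMulti]
  rfl

/-- There is a linear map (necessarily unique) mapping `v_1 ∧ … ∧ v_n` to
`u ∧ φ(v_1) ∧ … ∧ φ(v_n)`. -/
theorem exists_ut (n : ℕ) (φ : F →+* L) (u : MU L) : ∃ f : TT n F →ₗ[ℚ] TT (n + 1) L,
    ∀ v : Fin n → MU F, f (tp v) = tp (Fin.cons u (fun i => mu φ (v i))) := by
  refine ⟨(eT L (n + 1)).symm.toLinearMap ∘ₗ (wT n u) ∘ₗ (resT n φ) ∘ₗ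
    (eT F n).toLinearMap, fun v => ?_⟩
  rw [LinearMap.comp_apply, LinearMap.comp_apply, LinearMap.comp_apply, LinearEquiv.coe_coe,
    LinearEquiv.coe_coe, resT_eT, LinearEquiv.symm_apply_eq, eT_tp, wT_toQ, wL_ιMulti]
  rfl

/-- The map `z ↦ u ∧ φ(z)`, `Γ(F, n - 1) → Γ(L, n)`, all terms but the last one. -/
def us (k j : ℕ) (φ : F →+* L) (u : MU L) : CC k j F →ₗ[ℚ] CC k (j + 1) L :=
  (exists_us k j φ u).choose

/-- The map `z ↦ u ∧ φ(z)`, `Γ(F, n) → Γ(L, n + 1)`, last term. -/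
def ut (n : ℕ) (φ : F →+* L) (u : MU L) : TT n F →ₗ[ℚ] TT (n + 1) L :=
  (exists_ut n φ u).choose

lemma us_gn (k j : ℕ) (φ : F →+* L) (u : MU L) (x : P1 F) (v : Fin j → MU F) :
    us k j φ u (gn k x v) = gn k (Option.map φ x) (Fin.cons u (fun i => mu φ (v i))) :=
  (exists_us k j φ u).choose_spec x v

lemma ut_tp (n : ℕ) (φ : F →+* L) (u : MU L) (v : Fin n → MU F) :
    ut n φ u (tp v) = tp (Fin.cons u (fun i => mu φ (v i))) :=
  (exists_ut n φ u).choose_spec v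

lemma us_eq (k j : ℕ) (φ : F →+* L) (u : MU L) (z : CC k j F) :
    eC L k (j + 1) (us k j φ u z) = wC (k + 2) j u (resC (k + 1) j φ (eC F k j z)) := by
  have : (eC L k (j + 1)).toLinearMap ∘ₗ us k j φ u = (wC (k + 2) j u) ∘ₗ
      (resC (k + 1) j φ) ∘ₗ (eC F k j).toLinearMap := by
    refine CC_ext fun x v => ?_
    rw [LinearMap.comp_apply, LinearMap.comp_apply, LinearMap.comp_apply, LinearEquiv.coe_coe,
      LinearEquiv.coe_coe, resC_eC, us_gn, eC_gn, eC_gn, ← PB_gen, ← PB_gen, wC_PB, wT_toQ,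
      wL_ιMulti]
    rfl
  exact LinearMap.congr_fun this z

lemma ut_eq (n : ℕ) (φ : F →+* L) (u : MU L) (z : TT n F) :
    eT L (n + 1) (ut n φ u z) = wT n u (resT n φ (eT F n z)) := by
  have : (eT L (n + 1)).toLinearMap ∘ₗ ut n φ u = (wT n u) ∘ₗ
      (resT n φ) ∘ₗ (eT F n).toLinearMap := by
    refine TT_ext fun v => ?_
    rw [LinearMap.comp_apply, LinearMap.comp_apply, LinearMap.comp_apply, LinearEquiv.coe_coe,
      LinearEquiv.coe_coe, resT_eT, ut_tp, eT_tp, eT_tp, wT_toQ, wL_ιMulti]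
    rfl
  exact LinearMap.congr_fun this z

end

/-! ### induced maps on cohomology -/

section
variable {F : Type u} [Field F] {L : Type u} [Field L]

/-- The map `f` maps cocycles to cocycles, and `e` is the map induced by `f` on the cohomology
groups, the class of `z` being mapped to the class of `f z`. -/
def Ind {k j k' j' : ℕ} (f : CC k j F →ₗ[ℚ] CC k' j' L) (e : HC F k j → HC L k' j') : Prop :=
  ∀ z : ↥(ZC F k j), ∃ h : f z.1 ∈ ZC L k' j', e (hc z) = hc ⟨f z.1, h⟩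

/-- The map `e` is the map induced by `f` on the cohomology groups in the top degree. -/
def IndT {n n' : ℕ} (f : TT n F →ₗ[ℚ] TT n' L) (e : HT F n → HT L n') : Prop :=
  ∀ z : TT n F, e (ht z) = ht (f z)

end

/-! ### localisation -/

section
variable (K : Type u) [Field K]

/-- The map `Γ(K, n) → Γ(K(t), n)` induced by the inclusion, all terms but the last one. -/
def cs (k j : ℕ) : CC k j K →ₗ[ℚ] CC k j (RatFunc K) := rs k j RatFunc.C

/-- The map `Γ(K, n) → Γ(K(t), n)` induced by the inclusion, last term. -/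
def cst (n : ℕ) : TT n K →ₗ[ℚ] TT n (RatFunc K) := rt n RatFunc.C

/-- The map `z ↦ (t - a) ∧ z`, `Γ(K, n - 1) → Γ(K(t), n)`, all terms but the last one. -/
def ts (k j : ℕ) (a : K) : CC k j K →ₗ[ℚ] CC k (j + 1) (RatFunc K) :=
  us k j RatFunc.C (lgm (RatFunc.X - RatFunc.C a))

/-- The map `z ↦ (t - a) ∧ z`, `Γ(K, n - 1) → Γ(K(t), n)`, last term. -/
def tst (n : ℕ) (a : K) : TT n K →ₗ[ℚ] TT (n + 1) (RatFunc K) :=
  ut n RatFunc.C (lgm (RatFunc.X - RatFunc.C a))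

/-- The group `H^i(Γ(K, n) ⊗ ℚ) ⊕ ⨁_{a ∈ K} H^{i-1}(Γ(K, n - 1) ⊗ ℚ)`, `n = k + j + 3`,
`i = j + 2` (a degree below the top degree). -/
def SM (k j : ℕ) : Type u := HC K k (j + 1) × (K →₀ HC K k j)

instance instSM (k j : ℕ) : AddCommGroup (SM K k j) :=
  (Prod.instAddCommGroup : AddCommGroup (HC K k (j + 1) × (K →₀ HC K k j)))

instance instQSM (k j : ℕ) : Module ℚ (SM K k j) :=
  (Prod.instModule : Module ℚ (HC K k (j + 1) × (K →₀ HC K k j)))

/-- The group `H^n(Γ(K, n) ⊗ ℚ) ⊕ ⨁_{a ∈ K} H^{n-1}(Γ(K, n - 1) ⊗ ℚ)`, `n = m + 1` (the top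
degree). -/
def ST (m : ℕ) : Type u := HT K (m + 1) × (K →₀ HT K m)

instance instST (m : ℕ) : AddCommGroup (ST K m) :=
  (Prod.instAddCommGroup : AddCommGroup (HT K (m + 1) × (K →₀ HT K m)))

instance instQST (m : ℕ) : Module ℚ (ST K m) :=
  (Prod.instModule : Module ℚ (HT K (m + 1) × (K →₀ HT K m)))

variable {K}

/-- The inclusion of the first summand of `SM`. -/
def inM {k j : ℕ} (x : HC K k (j + 1)) : SM K k j := (x, 0)

/-- The inclusion of the summand of `SM` with index `a`. -/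
def inR {k j : ℕ} (a : K) (x : HC K k j) : SM K k j := (0, Finsupp.single a x)

/-- The inclusion of the first summand of `ST`. -/
def inMT {m : ℕ} (x : HT K (m + 1)) : ST K m := (x, 0)

/-- The inclusion of the summand of `ST` with index `a`. -/
def inRT {m : ℕ} (a : K) (x : HT K m) : ST K m := (0, Finsupp.single a x)

variable (K)

/-- The map `H^1(Γ(K, n) ⊗ ℚ) → H^1(Γ(K(t), n) ⊗ ℚ)`, `n = k + 2`, is an isomorphism. -/
def LocOne (k : ℕ) : Prop :=
  ∃ e : HC K k 0 ≃ₗ[ℚ] HC (RatFunc K) k 0, Ind (cs K k 0) e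

/-- The map `H^i(Γ(K, n) ⊗ ℚ) ⊕ ⨁_{a ∈ K} H^{i-1}(Γ(K, n - 1) ⊗ ℚ) → H^i(Γ(K(t), n) ⊗ ℚ)`,
`(z, (z_a)_a) ↦ z + ∑_a (t - a) ∧ z_a`, is an isomorphism, for `n = k + j + 3`, `i = j + 2` (a
degree below the top degree). -/
def LocMid (k j : ℕ) : Prop :=
  ∃ e : SM K k j ≃ₗ[ℚ] HC (RatFunc K) k (j + 1),
    Ind (cs K k (j + 1)) (fun x => e (inM x)) ∧ ∀ a : K, Ind (ts K k j a) (fun x => e (inR a x))

/-- The map `H^n(Γ(K, n) ⊗ ℚ) ⊕ ⨁_{a ∈ K} H^{n-1}(Γ(K, n - 1) ⊗ ℚ) → H^n(Γ(K(t), n) ⊗ ℚ)`,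
`(z, (z_a)_a) ↦ z + ∑_a (t - a) ∧ z_a`, is an isomorphism, for `n = m + 1` (the top degree). -/
def LocTop (m : ℕ) : Prop :=
  ∃ e : ST K m ≃ₗ[ℚ] HT (RatFunc K) (m + 1),
    IndT (cst K (m + 1)) (fun x => e (inMT x)) ∧ ∀ a : K, IndT (tst K m a) (fun x => e (inRT a x))

end

/-! ### generalities -/

section
variable {K : Type u} {V0 : Type v} {V1 : Type v} {W : Type w}
  [AddCommGroup V0] [Module ℚ V0] [AddCommGroup V1] [Module ℚ V1] [AddCommGroup W] [Module ℚ W]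

/-- isomorphisms of quotients -/
theorem loc_of (f0 : V0 →ₗ[ℚ] W) (g : K → V1 →ₗ[ℚ] W) (B0 : Submodule ℚ V0)
    (B1 : Submodule ℚ V1) (B : Submodule ℚ W) (h0 : ∀ z ∈ B0, f0 z ∈ B)
    (h1 : ∀ a, ∀ z ∈ B1, g a z ∈ B)
    (surj : ∀ z : W, ∃ (z0 : V0) (s : Finset K) (za : K → V1),
      z - (f0 z0 + ∑ a ∈ s, g a (za a)) ∈ B)
    (inj : ∀ (z0 : V0) (s : Finset K) (za : K → V1), f0 z0 + ∑ a ∈ s, g a (za a) ∈ B →
      z0 ∈ B0 ∧ ∀ a ∈ s, za a ∈ B1) :
    ∃ e : ((V0 ⧸ B0) × (K →₀ (V1 ⧸ B1))) ≃ₗ[ℚ] (W ⧸ B),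
      (∀ z, e (Submodule.Quotient.mk z, 0) = Submodule.Quotient.mk (f0 z)) ∧
      (∀ a z, e (0, Finsupp.single a (Submodule.Quotient.mk z)) =
        Submodule.Quotient.mk (g a z)) := by
  set T : ((V0 ⧸ B0) × (K →₀ (V1 ⧸ B1))) →ₗ[ℚ] (W ⧸ B) :=
    (B0.mapQ B f0 h0).coprod (Finsupp.lsum ℚ fun a => B1.mapQ B (g a) (h1 a)) with hT
  have t0 : ∀ z, T (Submodule.Quotient.mk z, 0) = Submodule.Quotient.mk (f0 z) := by
    intro z
    rw [hT, LinearMap.coprod_apply, map_zero, add_zero]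
    rfl
  have t1 : ∀ a z, T (0, Finsupp.single a (Submodule.Quotient.mk z)) =
      Submodule.Quotient.mk (g a z) := by
    intro a z
    rw [hT, LinearMap.coprod_apply, map_zero, zero_add, Finsupp.lsum_single]
    rfl
  have t2 : ∀ (z0 : V0) (s : Finset K) (za : K → V1),
      T (Submodule.Quotient.mk z0, ∑ a ∈ s, Finsupp.single a (Submodule.Quotient.mk (za a))) =
        Submodule.Quotient.mk (f0 z0 + ∑ a ∈ s, g a (za a)) := by
    intro z0 s za
    have e1 : (Submodule.Quotient.mk (f0 z0 + ∑ a ∈ s, g a (za a)) : W ⧸ B) =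
        Submodule.Quotient.mk (f0 z0) + ∑ a ∈ s, Submodule.Quotient.mk (g a (za a)) := by
      rw [Submodule.Quotient.mk_add]
      congr 1
      exact map_sum B.mkQ _ _
    rw [hT, LinearMap.coprod_apply, map_sum, e1]
    congr 1
    refine Finset.sum_congr rfl fun a _ => ?_
    rw [Finsupp.lsum_single]
    rfl
  have hbij : Function.Bijective T := by
    constructor
    · rw [injective_iff_map_eq_zero]
      rintro ⟨x, y⟩ hxy
      obtain ⟨z0, rfl⟩ := Submodule.Quotient.mk_surjective _ x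
      choose za hza using fun a => Submodule.Quotient.mk_surjective _ (y a)
      have e1 : y = ∑ a ∈ y.support, Finsupp.single a (Submodule.Quotient.mk (za a)) := by
        conv_lhs => rw [← Finsupp.sum_single y]
        rw [Finsupp.sum]
        exact Finset.sum_congr rfl fun a _ => by rw [hza]
      have e2 := t2 z0 y.support za
      rw [← e1, hxy] at e2
      have e3 := inj z0 y.support za ((Submodule.Quotient.mk_eq_zero _).1 e2.symm)
      have e4 : (Submodule.Quotient.mk z0 : V0 ⧸ B0) = 0 :=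
        (Submodule.Quotient.mk_eq_zero _).2 e3.1
      have e5 : y = 0 := by
        by_contra hy
        obtain ⟨a, ha⟩ := Finsupp.support_nonempty_iff.2 hy
        have e6 : (Submodule.Quotient.mk (za a) : V1 ⧸ B1) = 0 :=
          (Submodule.Quotient.mk_eq_zero _).2 (e3.2 a ha)
        rw [hza] at e6
        exact (Finsupp.mem_support_iff.1 ha) e6
      rw [e4, e5]; rfl
    · intro z
      obtain ⟨z, rfl⟩ := Submodule.Quotient.mk_surjective _ z
      obtain ⟨z0, s, za, h⟩ := surj z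
      refine ⟨_, (t2 z0 s za).trans ?_⟩
      symm
      rw [Submodule.Quotient.eq]
      exact h
  refine ⟨LinearEquiv.ofBijective T hbij, fun z => t0 z, fun a z => t1 a z⟩

/-- isomorphisms of subquotients -/
theorem loc_of' (f0 : V0 →ₗ[ℚ] W) (g : K → V1 →ₗ[ℚ] W) (Z0 B0 : Submodule ℚ V0)
    (Z1 B1 : Submodule ℚ V1) (Z B : Submodule ℚ W) (c0 : ∀ z ∈ Z0, f0 z ∈ Z)
    (c1 : ∀ a, ∀ z ∈ Z1, g a z ∈ Z) (h0 : ∀ z ∈ B0, f0 z ∈ B)
    (h1 : ∀ a, ∀ z ∈ B1, g a z ∈ B)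
    (surj : ∀ z ∈ Z, ∃ (z0 : V0) (s : Finset K) (za : K → V1) (w : W),
      z0 ∈ Z0 ∧ (∀ a, za a ∈ Z1) ∧ w ∈ B ∧ z = f0 z0 + ∑ a ∈ s, g a (za a) + w)
    (inj : ∀ (z0 : V0) (s : Finset K) (za : K → V1), f0 z0 + ∑ a ∈ s, g a (za a) ∈ B →
      z0 ∈ B0 ∧ ∀ a ∈ s, za a ∈ B1) :
    ∃ e : ((↥Z0 ⧸ B0.submoduleOf Z0) × (K →₀ (↥Z1 ⧸ B1.submoduleOf Z1))) ≃ₗ[ℚ]
        (↥Z ⧸ B.submoduleOf Z),
      (∀ z : ↥Z0, ∃ h : f0 z ∈ Z,
        e (Submodule.Quotient.mk z, 0) = Submodule.Quotient.mk ⟨_, h⟩) ∧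
      (∀ (a : K) (z : ↥Z1), ∃ h : g a z ∈ Z,
        e (0, Finsupp.single a (Submodule.Quotient.mk z)) = Submodule.Quotient.mk ⟨_, h⟩) := by
  obtain ⟨e, he0, he1⟩ := loc_of (f0.restrict c0) (fun a => (g a).restrict (c1 a))
    (B0.submoduleOf Z0) (B1.submoduleOf Z1) (B.submoduleOf Z)
    (fun z hz => h0 _ hz) (fun a z hz => h1 a _ hz)
    (by
      rintro ⟨z, hz⟩
      obtain ⟨z0, s, za, w, hz0, hza, hw, rfl⟩ := surj z hz
      refine ⟨⟨z0, hz0⟩, s, fun a => ⟨za a, hza a⟩, ?_⟩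
      have : ((⟨f0 z0 + ∑ a ∈ s, g a (za a) + w, hz⟩ : ↥Z) -
          ((f0.restrict c0) ⟨z0, hz0⟩ + ∑ a ∈ s, ((g a).restrict (c1 a)) ⟨za a, hza a⟩) :
            ↥Z).1 = w := by
        rw [Submodule.coe_sub, Submodule.coe_add, Submodule.coe_sum]
        simp only [LinearMap.coe_restrict_apply]
        abel
      change _ ∈ B
      rw [Submodule.subtype_apply, this]
      exact hw)
    (by
      intro z0 s za h
      have h' : f0 z0.1 + ∑ a ∈ s, g a (za a).1 ∈ B := by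
        have h2 : (((f0.restrict c0) z0 + ∑ a ∈ s, ((g a).restrict (c1 a)) (za a) : ↥Z)).1 ∈ B :=
          h
        rw [Submodule.coe_add, Submodule.coe_sum] at h2
        simpa only [LinearMap.coe_restrict_apply] using h2
      obtain ⟨h3, h4⟩ := inj z0.1 s (fun a => (za a).1) h'
      exact ⟨h3, fun a ha => h4 a ha⟩)
  exact ⟨e, fun z => ⟨c0 _ z.2, he0 z⟩, fun a z => ⟨c1 a _ z.2, he1 a z⟩⟩

end

end Helper14.Loc
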