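import Pool.Agent.Helper91.Gon.Fbar
import Pool.Agent.Helper14.Loc.Defs

set_option autoImplicit false

/-!
# The complexes `Γ(K(s), n) ⊗ ℚ` for an algebraic closure `K` of `F_p`
-/

namespace Helper14.Loc

open Helper14.Gon

universe u

/-- An acyclic complex has no cohomology. -/
theorem subs_of_acyclic {F : Type u} [Field F] (h : Acyclic F) :
    (∀ k j : ℕ, Subsingleton (HC F k j)) ∧ ∀ n : ℕ, 2 ≤ n → Subsingleton (HT F n) := by
  obtain ⟨h1, h2, h3, h4, h5⟩ := h
  have key : ∀ k j : ℕ, ZC F k j ≤ BC F k j := by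
    intro k j z hz
    cases j with
    | zero =>
      cases k with
      | zero =>
        have h6 : dl 0 F z = 0 := hz
        have h7 : z = 0 := h1 (h6.trans (map_zero _).symm)
        rw [h7]
        exact Submodule.zero_mem _
      | succ k =>
        have h6 : dd k 0 F z = 0 := hz
        have h7 : z = 0 := h2 k (h6.trans (map_zero _).symm)
        rw [h7]
        exact Submodule.zero_mem _
    | succ j =>
      cases k with
      | zero =>
        have h6 : dl (j + 1) F z = 0 := hz
        exact (h4 j z).1 h6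
      | succ k =>
        have h6 : dd k (j + 1) F z = 0 := hz
        exact (h3 k j z).1 h6
  refine ⟨fun k j => ?_, fun n hn => ?_⟩
  · unfold HC
    rw [Submodule.Quotient.subsingleton_iff, eq_top_iff]
    intro z _
    exact key k j z.2
  · obtain ⟨m, rfl⟩ := Nat.exists_eq_add_of_le' hn
    unfold HT
    rw [Submodule.Quotient.subsingleton_iff, eq_top_iff]
    intro z _
    exact h5 m z

/-- `K` an algebraic closure of `F_p` -/
theorem fbar (p : ℕ) [Fact p.Prime] (K : Type u) [Field K] [Algebra (ZMod p) K]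
    [Algebra.IsAlgebraic (ZMod p) K] [IsAlgClosed K] :
    (∀ k j : ℕ, Subsingleton (HC (RatFunc K) k j)) ∧
      ∀ n : ℕ, 2 ≤ n → Subsingleton (HT (RatFunc K) n) := by
  have hp : p.Prime := Fact.out
  have hc : CharP K p := charP_of_injective_algebraMap (algebraMap (ZMod p) K).injective p
  have halg : ∀ x : K, ∃ P : Polynomial (ZMod p), P ≠ 0 ∧
      P.eval₂ (ZMod.castHom (dvd_refl p) K) x = 0 := by
    intro x
    obtain ⟨P, hP, h⟩ := Algebra.IsAlgebraic.isAlgebraic (R := ZMod p) x
    refine ⟨P, hP, ?_⟩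
    have e : ZMod.castHom (dvd_refl p) K = algebraMap (ZMod p) K := RingHom.ext_zmod _ _
    rw [e]
    exact h
  have h := exists_pow_eq p hp halg
  refine subs_of_acyclic ⟨?_, fun k => ?_, fun k j z => ⟨fun hz => ?_, ?_⟩,
    fun j z => ⟨fun hz => ?_, ?_⟩, fun j z => ?_⟩
  · exact LinearMap.ker_eq_bot.1 (ratFunc_deg1 hp h 0)
  · exact LinearMap.ker_eq_bot.1 (ratFunc_deg1 hp h (k + 1))
  · exact Pool.Agent.Helper91.Gon.Glue.ratFunc_exact_dd hp h k j z hz
  · rintro ⟨y, rfl⟩
    exact dd_dd k j y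
  · exact Pool.Agent.Helper91.Gon.Glue.ratFunc_exact_dl hp h j z hz
  · rintro ⟨y, rfl⟩
    exact dl_dd j y
  · exact Pool.Agent.Helper91.Gon.Glue.ratFunc_surj_dl hp h j z

end Helper14.Loc
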