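import Pool.Agent.Helper14.Loc.Main
import Pool.Agent.Helper14.W4.N3
import Pool.Agent.Helper52.W4.Top

set_option autoImplicit false

/-!
# Localisation for `Γ(K(t), n) ⊗ ℚ`: the top degree, and weights at most four
-/

noncomputable section

open Polynomial TensorProduct
open scoped Classical

namespace Helper14.Loc

open Helper14.Gon Helper14.W4

universe u v w

section
variable {K : Type u} [Field K]

lemma surj_zero_zero [IsAlgClosed K] : Surj K 0 0 := by
  intro z hz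
  obtain ⟨z0, s, za, w, h0, ha, h⟩ := surj32 z hz
  exact ⟨z0, s, za, w, h0, ha, h⟩

lemma surj_one_zero [IsAlgClosed K] : Surj K 1 0 := by
  intro z hz
  obtain ⟨z0, s, za, w, h0, ha, h⟩ := surj42 z hz
  exact ⟨z0, s, za, w, h0, ha, h⟩

lemma wT_rT_bdry (j : ℕ) (a : K) (y : Cx 2 j K) :
    wT (j + 2) (ee a) (rT (j + 2) (dT j y)) = dT (j + 1) (wC 2 j (ee a) (rC 0 j y)) := by
  rw [dT_wC, rT_dT]

/-- the general lemma for the top degree -/
lemma locTop_of (m : ℕ)
    (h1 : ∀ a, ∀ z ∈ BT K m,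
      ut m (RatFunc.C : K →+* RatFunc K) (lgm (RatFunc.X - RatFunc.C a)) z ∈
        BT (RatFunc K) (m + 1))
    (h0 : ∀ z ∈ BT K (m + 1), rt (m + 1) (RatFunc.C : K →+* RatFunc K) z ∈
        BT (RatFunc K) (m + 1))
    (surj : ∀ z : Tx (m + 1) (RatFunc K), ∃ (z0 : Tx (m + 1) K) (s : Finset K)
      (za : K → Tx m K), (eT (RatFunc K) (m + 1)).symm
        (z - (rT (m + 1) z0 + ∑ a ∈ s, wT m (ee a) (rT m (za a)))) ∈ BT (RatFunc K) (m + 1))
    (inj : ∀ (z0 : Tx (m + 1) K) (s : Finset K) (za : K → Tx m K),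
      (eT (RatFunc K) (m + 1)).symm (rT (m + 1) z0 + ∑ a ∈ s, wT m (ee a) (rT m (za a))) ∈
        BT (RatFunc K) (m + 1) →
      (eT K (m + 1)).symm z0 ∈ BT K (m + 1) ∧ ∀ a ∈ s, (eT K m).symm (za a) ∈ BT K m) :
    LocTop K m := by
  have ert : ∀ z : TT (m + 1) K, eT (RatFunc K) (m + 1)
      (rt (m + 1) (RatFunc.C : K →+* RatFunc K) z) = rT (m + 1) (eT K (m + 1) z) :=
    fun z => rt_eq (m + 1) _ z
  have eut : ∀ (a : K) (z : TT m K), eT (RatFunc K) (m + 1)
      (ut m (RatFunc.C : K →+* RatFunc K) (lgm (RatFunc.X - RatFunc.C a)) z) =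
        wT m (ee a) (rT m (eT K m z)) := fun a z => ut_eq m _ _ z
  have esum : ∀ (z0 : TT (m + 1) K) (s : Finset K) (za : K → TT m K),
      eT (RatFunc K) (m + 1) (rt (m + 1) (RatFunc.C : K →+* RatFunc K) z0 +
        ∑ a ∈ s, ut m (RatFunc.C : K →+* RatFunc K) (lgm (RatFunc.X - RatFunc.C a)) (za a)) =
      rT (m + 1) (eT K (m + 1) z0) + ∑ a ∈ s, wT m (ee a) (rT m (eT K m (za a))) := by
    intro z0 s za
    rw [map_add, ert, map_sum]
    congr 1
    exact Finset.sum_congr rfl fun a _ => eut a (za a)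
  refine loc_of (rt (m + 1) (RatFunc.C : K →+* RatFunc K))
    (fun a => ut m (RatFunc.C : K →+* RatFunc K) (lgm (RatFunc.X - RatFunc.C a)))
    (BT K (m + 1)) (BT K m) (BT (RatFunc K) (m + 1)) h0 h1 ?_ ?_
  · intro z
    obtain ⟨z0, s, za, h⟩ := surj (eT (RatFunc K) (m + 1) z)
    refine ⟨(eT K (m + 1)).symm z0, s, fun a => (eT K m).symm (za a), ?_⟩
    have e : z - (rt (m + 1) (RatFunc.C : K →+* RatFunc K) ((eT K (m + 1)).symm z0) +
        ∑ a ∈ s, ut m (RatFunc.C : K →+* RatFunc K) (lgm (RatFunc.X - RatFunc.C a))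
          ((eT K m).symm (za a))) = (eT (RatFunc K) (m + 1)).symm
        (eT (RatFunc K) (m + 1) z -
          (rT (m + 1) z0 + ∑ a ∈ s, wT m (ee a) (rT m (za a)))) := by
      apply (eT (RatFunc K) (m + 1)).injective
      rw [LinearEquiv.apply_symm_apply, map_sub, esum]
      simp only [LinearEquiv.apply_symm_apply]
    rw [e]
    exact h
  · intro z0 s za h
    have e : rt (m + 1) (RatFunc.C : K →+* RatFunc K) z0 +
        ∑ a ∈ s, ut m (RatFunc.C : K →+* RatFunc K) (lgm (RatFunc.X - RatFunc.C a)) (za a) =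
        (eT (RatFunc K) (m + 1)).symm (rT (m + 1) (eT K (m + 1) z0) +
          ∑ a ∈ s, wT m (ee a) (rT m (eT K m (za a)))) := by
      apply (eT (RatFunc K) (m + 1)).injective
      rw [LinearEquiv.apply_symm_apply, esum]
    rw [e] at h
    obtain ⟨h2, h3⟩ := inj _ s (fun a => eT K m (za a)) h
    exact ⟨h2, fun a ha => h3 a ha⟩

theorem locTop_zero [IsAlgClosed K] : LocTop K 0 := by
  refine locTop_of 0 ?_ ?_ ?_ ?_
  · intro a z hz
    have : z = 0 := hz
    rw [this, map_zero]; exact zero_mem _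
  · intro z hz
    have : z = 0 := hz
    rw [this, map_zero]; exact zero_mem _
  · intro z
    obtain ⟨x, ⟨w0, rfl⟩, y, ⟨f, rfl⟩, rfl⟩ := Submodule.mem_sup.1 (TopAux.S1_top z)
    refine ⟨w0, f.support, f, ?_⟩
    rw [← TopAux.EM_apply, sub_self, map_zero]
    exact zero_mem _
  · intro z0 s za h
    have h' : rT 1 z0 + ∑ a ∈ s, wT 0 (ee a) (rT 0 (za a)) = 0 :=
      (LinearEquiv.map_eq_zero_iff _).1 (h : (eT (RatFunc K) 1).symm _ = 0)
    have h1 : ∀ b ∈ s, za b = 0 := by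
      intro b hb
      have e1 := congrArg (ctT 0 (va b)) h'
      rw [map_add, ctT_va_rT, zero_add, map_sum, map_zero] at e1
      have : ∀ a ∈ s, ctT 0 (va b) (wT 0 (ee a) (rT 0 (za a))) =
          if a = b then rT 0 (za a) else 0 := fun a _ => by
        rw [ctT_wT_zero, va_ee, ite_smul, one_smul, zero_smul]
      rw [Finset.sum_congr rfl this, Finset.sum_ite_eq', if_pos hb] at e1
      have e2 := congrArg (sT b 0) e1
      rwa [sT_rT, map_zero] at e2
    refine ⟨?_, fun a ha => ?_⟩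
    · rw [Finset.sum_eq_zero fun a ha => by rw [h1 a ha, map_zero, map_zero], add_zero] at h'
      have e2 := congrArg (sT 0 1) h'
      rw [sT_rT, map_zero] at e2
      rw [e2, map_zero]; exact zero_mem _
    · rw [h1 a ha, map_zero]; exact zero_mem _

theorem locTop_succ [IsAlgClosed K] (j : ℕ) : LocTop K (j + 1) := by
  have hB : ∀ (F : Type u) [Field F] (n : ℕ) (z : Tx (n + 2) F),
      (eT F (n + 2)).symm z ∈ BT F (n + 2) ↔ ∃ v, dT n v = z := by
    intro F _ n z
    rw [mem_BT, LinearEquiv.apply_symm_apply]; rfl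
  refine locTop_of (j + 1) ?_ ?_ ?_ ?_
  · intro a z hz
    cases j with
    | zero =>
      have : z = 0 := hz
      rw [this, map_zero]; exact zero_mem _
    | succ j =>
      obtain ⟨y, hy⟩ := (mem_BT j z).1 hz
      rw [mem_BT]
      refine ⟨wC 2 j (ee a) (rC 0 j y), ?_⟩
      rw [← wT_rT_bdry, hy]
      exact (ut_eq (j + 2) _ _ z).symm
  · intro z hz
    obtain ⟨y, hy⟩ := (mem_BT j z).1 hz
    rw [mem_BT]
    refine ⟨rC 0 j y, ?_⟩
    rw [rT_dT, hy]
    exact (rt_eq (j + 2) _ z).symm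
  · intro z
    obtain ⟨z0, s, za, v, h⟩ := surjT j z
    refine ⟨z0, s, za, ?_⟩
    rw [hB]
    exact ⟨v, by rw [h]; abel⟩
  · intro z0 s za h
    rw [hB] at h
    obtain ⟨v, hv⟩ := h
    cases j with
    | zero =>
      obtain ⟨h1, h2⟩ := injT_zero z0 s za v hv.symm
      refine ⟨(hB K 0 z0).2 h1, fun a ha => ?_⟩
      rw [h2 a ha, map_zero]; exact zero_mem _
    | succ j =>
      obtain ⟨h1, h2⟩ := injT_succ j z0 s za v hv.symm
      exact ⟨(hB K (j + 1) z0).2 h1, fun a ha => (hB K j (za a)).2 (h2 a ha)⟩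

theorem locTop [IsAlgClosed K] (m : ℕ) : LocTop K m := by
  cases m with
  | zero => exact locTop_zero
  | succ j => exact locTop_succ j

end

end Helper14.Loc
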